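import Mathlib
import Pool.Agent.W5h30.SM.Curve
import Pool.Agent.W5h30.SM.Few

/-!
# The joint law of the digits of `f x` and `g x`, `x` a random algebraic number

Let `d ≥ 2`, `ε > 0`, and let `f` and `g` be twice continuously differentiable near `[a, b]` with
`f' g'' - f'' g' ≠ 0` on `[a, b]` (the plane curve `(f, g)` has no inflection), for instance
`(f x, g x) = (e ^ x, π ^ x)`, `(e ^ x, 2 ^ x)`, `(π ^ x, 2 ^ x)` or `(x, e ^ x)`. Let `x` be a random real algebraic number in `[a, b]` of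
degree `d` and height at most `H`. The words of the digits of `f x` and `g x` in two windows of places
between `ε log H` and `(d + 1 - ε) log H` are jointly uniformly distributed, up to `H^-c` in total
variation, if the word of one of the two numbers is shorter, by a factor `H^ε`, than the place where
the window of the other one begins; this is sharp.
-/

set_option autoImplicit false

namespace Pool.Agent.Results.MP_7e9a3a_nt.JointSharpCutoff

open Polynomial

/-- The real algebraic numbers of degree `d` and height at most `H` in `[a, b]` (real roots in `[a, b]`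
of irreducible integer polynomials of degree `d` with coefficients at most `H` in absolute value). -/
def AlgIn (d H : ℕ) (a b : ℝ) : Set ℝ :=
  {x | (∃ P : ℤ[X], Irreducible P ∧ P.natDegree = d ∧ (∀ i, |P.coeff i| ≤ H) ∧ aeval x P = 0) ∧
    x ∈ Set.Icc a b}

/-- The integer part of `K {m y}`; for `m = r ^ s` and `K = r ^ N` this is the word of the digits in
base `r` of `y` at the places `s + 1, ..., s + N` after the point. -/
noncomputable def word (m K : ℕ) (y : ℝ) : ℕ := ⌊(K : ℝ) * Int.fract ((m : ℝ) * y)⌋₊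

/-- **Main theorem.** -/
theorem result (d : ℕ) (hd : 2 ≤ d) (ε : ℝ) (hε : 0 < ε) (a b : ℝ) (hab : a < b) (f g : ℝ → ℝ)
    (U : Set ℝ) (hU : IsOpen U) (hUab : Set.Icc a b ⊆ U) (hf : ContDiffOn ℝ 2 f U)
    (hg : ContDiffOn ℝ 2 g U)
    (hW : ∀ t ∈ Set.Icc a b, deriv f t * deriv (deriv g) t - deriv (deriv f) t * deriv g t ≠ 0) :
    ∃ c : ℝ, 0 < c ∧ ∃ H0 : ℕ, ∀ H : ℕ, H0 ≤ H → (AlgIn d H a b).Finite ∧ (AlgIn d H a b).Nonempty ∧
      (∀ m n K L : ℕ, (H : ℝ) ^ ε ≤ m → (H : ℝ) ^ ε ≤ n → 1 ≤ K → 1 ≤ L →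
        (m : ℝ) * K ≤ (H : ℝ) ^ ((d : ℝ) + 1 - ε) → (n : ℝ) * L ≤ (H : ℝ) ^ ((d : ℝ) + 1 - ε) →
        ((K : ℝ) * (H : ℝ) ^ ε ≤ n ∨ (L : ℝ) * (H : ℝ) ^ ε ≤ m) →
        ∀ E : Set (ℕ × ℕ), E ⊆ Set.Iio K ×ˢ Set.Iio L →
        |({x | x ∈ AlgIn d H a b ∧ (word m K (f x), word n L (g x)) ∈ E}.ncard : ℝ) /
          (AlgIn d H a b).ncard - (E.ncard : ℝ) / (K * L)| ≤ (H : ℝ) ^ (-c)) ∧
      (∀ m n K L : ℕ, 1 ≤ m → 1 ≤ n → 1 ≤ K → 1 ≤ L →
        (((n : ℝ) * (H : ℝ) ^ ε ≤ K ∧ (m : ℝ) * (H : ℝ) ^ ε ≤ L) ∨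
          (H : ℝ) ^ ((d : ℝ) + 1 + ε) ≤ (K : ℝ) * L) →
        ∃ E : Set (ℕ × ℕ), E ⊆ Set.Iio K ×ˢ Set.Iio L ∧ (E.ncard : ℝ) / (K * L) ≤ (H : ℝ) ^ (-c) ∧
        ∀ x ∈ AlgIn d H a b, (word m K (f x), word n L (g x)) ∈ E) := by
  classical
  obtain ⟨q, rfl⟩ : ∃ q, d = q + 2 := ⟨d - 2, by omega⟩
  obtain ⟨ε', hε'⟩ : ∃ ε' : ℝ, ε' = min ε 1 := ⟨_, rfl⟩
  have hε'0 : 0 < ε' := by rw [hε']; exact lt_min hε one_pos
  have hε'1 : ε' ≤ 1 := by rw [hε']; exact min_le_right _ _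
  have hε'e : ε' ≤ ε := by rw [hε']; exact min_le_left _ _
  -- regularity
  have reg : ∀ u : ℝ → ℝ, ContDiffOn ℝ 2 u U → (∀ x ∈ Set.Icc a b, HasDerivAt u (deriv u x) x) ∧
      (∀ x ∈ Set.Icc a b, HasDerivAt (deriv u) (deriv (deriv u) x) x) ∧
      ContinuousOn (deriv (deriv u)) (Set.Icc a b) ∧ ContinuousOn (deriv u) (Set.Icc a b) := by
    intro u hu
    have hu1 : ContDiffOn ℝ 1 (deriv u) U := hu.deriv_of_isOpen hU (by norm_num)
    have hu2 : ContDiffOn ℝ 0 (deriv (deriv u)) U := hu1.deriv_of_isOpen hU (by norm_num)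
    refine ⟨fun x hx => ?_, fun x hx => ?_, hu2.continuousOn.mono hUab, hu1.continuousOn.mono hUab⟩
    · exact ((hu.differentiableOn (by norm_num)).differentiableAt (hU.mem_nhds (hUab hx))).hasDerivAt
    · exact ((hu1.differentiableOn (by norm_num)).differentiableAt (hU.mem_nhds (hUab hx))).hasDerivAt
  obtain ⟨hf1, hf2, cf2, cf1⟩ := reg f hf
  obtain ⟨hg1, hg2, cg2, cg1⟩ := reg g hg
  have bd : ∀ u : ℝ → ℝ, ContinuousOn u (Set.Icc a b) → ∃ B : ℝ, ∀ x ∈ Set.Icc a b, |u x| ≤ B := by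
    intro u hu
    obtain ⟨B, hB⟩ := isCompact_Icc.exists_bound_of_continuousOn hu
    exact ⟨B, fun x hx => by rw [← Real.norm_eq_abs]; exact hB x hx⟩
  have lo : ∀ u : ℝ → ℝ, ContinuousOn u (Set.Icc a b) → (∀ x ∈ Set.Icc a b, u x ≠ 0) →
      ∃ κ : ℝ, 0 < κ ∧ ∀ x ∈ Set.Icc a b, κ ≤ |u x| := by
    intro u hu hu0
    obtain ⟨t0, ht0, hmin⟩ := isCompact_Icc.exists_isMinOn (Set.nonempty_Icc.2 hab.le) hu.abs
    exact ⟨|u t0|, abs_pos.2 (hu0 t0 ht0), fun x hx => hmin hx⟩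
  obtain ⟨B1, hB1⟩ := bd _ cf1
  obtain ⟨B2, hB2⟩ := bd _ cg1
  obtain ⟨B3, hB3⟩ := bd _ cf2
  obtain ⟨B4, hB4⟩ := bd _ cg2
  obtain ⟨B, hB⟩ : ∃ B : ℝ, B = max (max B1 B2) (max B3 B4) := ⟨_, rfl⟩
  have l1 : B1 ≤ B := by rw [hB]; exact (le_max_left _ _).trans (le_max_left _ _)
  have l2 : B2 ≤ B := by rw [hB]; exact (le_max_right _ _).trans (le_max_left _ _)
  have l3 : B3 ≤ B := by rw [hB]; exact (le_max_left _ _).trans (le_max_right _ _)
  have l4 : B4 ≤ B := by rw [hB]; exact (le_max_right _ _).trans (le_max_right _ _)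
  obtain ⟨κ, hκ, hκW⟩ := lo (fun t => deriv f t * deriv (deriv g) t - deriv (deriv f) t * deriv g t)
    ((cf1.mul cg2).sub (cf2.mul cg1)) hW
  have hpair : Pool.Agent.W5h30.SM.Pair f g (deriv f) (deriv g) (deriv (deriv f)) (deriv (deriv g)) a b B κ :=
    ⟨hab, hf1, hg1, hf2, hg2, cf2, cg2, fun x hx => (hB1 x hx).trans l1, fun x hx => (hB2 x hx).trans l2,
      fun x hx => (hB3 x hx).trans l3, fun x hx => (hB4 x hx).trans l4, hκ, hκW⟩
  have hFf : Pool.Agent.W5h30.SM.FO f a b := by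
    refine Pool.Agent.W5h30.SM.curve_FO hab hf1 hf2 cf2 fun x hx => ?_
    by_contra hcon
    push Not at hcon
    exact hW x hx (by rw [hcon.1, hcon.2]; ring)
  have hFg : Pool.Agent.W5h30.SM.FO g a b := by
    refine Pool.Agent.W5h30.SM.curve_FO hab hg1 hg2 cg2 fun x hx => ?_
    by_contra hcon
    push Not at hcon
    exact hW x hx (by rw [hcon.1, hcon.2]; ring)
  obtain ⟨c1, hc1, H1, hlaw⟩ := hpair.law1 hFf hFg q ε' hε'0 hε'1
  obtain ⟨C1, hC1, hoff⟩ := Pool.Agent.W5h30.SM.PV_off hFf hFg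
  obtain ⟨C3, hC3⟩ : ∃ C3 : ℝ, C3 = 3 ^ (q + 3) * (q + 2) := ⟨_, rfl⟩
  have hC30 : 0 < C3 := by rw [hC3]; positivity
  obtain ⟨c, hc⟩ : ∃ c : ℝ, c = min c1 (ε / 2) := ⟨_, rfl⟩
  have hc0 : 0 < c := by rw [hc]; exact lt_min hc1 (by positivity)
  have hca : c ≤ c1 := by rw [hc]; exact min_le_left _ _
  have hcc : 2 * c ≤ ε := by
    have : c ≤ ε / 2 := by rw [hc]; exact min_le_right _ _
    linarith
  refine ⟨c, hc0, ?_⟩
  have hev : ∀ᶠ H : ℕ in Filter.atTop, C3 ≤ (H : ℝ) ^ c ∧ 2 * (2 * C1 + 1) ≤ (H : ℝ) ^ c ∧ H1 ≤ H ∧ 1 ≤ H := by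
    filter_upwards [Pool.Agent.W5h30.LL.ev_rpow C3 c hc0,
      Pool.Agent.W5h30.LL.ev_rpow (2 * (2 * C1 + 1)) c hc0, Filter.eventually_ge_atTop H1,
      Filter.eventually_ge_atTop 1] with H a b c d
    exact ⟨a, b, c, d⟩
  obtain ⟨H0, hH0⟩ := Filter.eventually_atTop.1 hev
  refine ⟨H0, fun H hH => ?_⟩
  obtain ⟨g1, g1', g2, g3⟩ := hH0 H hH
  have hHR : (1 : ℝ) ≤ H := by exact_mod_cast g3
  have hHpos : (0 : ℝ) < H := by linarith
  have hfin' : (Pool.Agent.Y933.KG.Alg (q + 2) H).Finite := Pool.Agent.Y933.KG.Alg_finite q H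
  have hsub : AlgIn (q + 2) H a b ⊆ Pool.Agent.Y933.KG.Alg (q + 2) H := fun x hx => hx.1
  have hfin : (AlgIn (q + 2) H a b).Finite := hfin'.subset hsub
  obtain ⟨s, hs⟩ : ∃ s : Finset ℝ, s = hfin'.toFinset := ⟨_, rfl⟩
  have hmem : ∀ x, x ∈ s ↔ x ∈ Pool.Agent.Y933.KG.Alg (q + 2) H := by
    intro x
    rw [hs, Set.Finite.mem_toFinset]
  have hcount : ∀ P : ℝ → Prop, {x | x ∈ AlgIn (q + 2) H a b ∧ P x}.ncard =
      Pool.Agent.W5h30.LL.cn s (fun x => x ∈ Set.Icc a b ∧ P x) := by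
    intro P
    have h1 : {x | x ∈ AlgIn (q + 2) H a b ∧ P x} =
        ((s.filter (fun x => x ∈ Set.Icc a b ∧ P x) : Finset ℝ) : Set ℝ) := by
      rw [Finset.coe_filter]
      ext x
      show ((x ∈ Pool.Agent.Y933.KG.Alg (q + 2) H ∧ x ∈ Set.Icc a b) ∧ P x) ↔
        (x ∈ s ∧ x ∈ Set.Icc a b ∧ P x)
      rw [hmem, and_assoc]
    rw [h1, Set.ncard_coe_finset]
    unfold Pool.Agent.W5h30.LL.cn
    congr 1
    ext x
    simp only [Finset.mem_filter]
  have hcard : (AlgIn (q + 2) H a b).ncard = Pool.Agent.W5h30.LL.cn s (fun x => x ∈ Set.Icc a b) := by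
    have h1 := hcount fun _ => True
    have h2 : {x | x ∈ AlgIn (q + 2) H a b ∧ True} = AlgIn (q + 2) H a b := by
      ext x
      exact ⟨fun h => h.1, fun h => ⟨h, trivial⟩⟩
    rw [h2] at h1
    rw [h1]
    congr 1
    funext x
    exact propext ⟨fun h => h.1, fun h => ⟨h, trivial⟩⟩
  obtain ⟨hpos, hl⟩ := hlaw H g2 s hmem
  have hq3 : ((q + 2 : ℕ) : ℝ) + 1 = (q : ℝ) + 3 := by push_cast; ring
  have hword : ∀ (m K : ℕ) (y : ℝ), word m K y = Pool.Agent.W5h30.SM.cell K ((m : ℝ) * y) := fun _ _ _ => rfl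
  have hwlt : ∀ (m K : ℕ) (y : ℝ), 1 ≤ K → word m K y < K := fun m K y hK => by
    rw [hword]; exact Pool.Agent.W5h30.SM.cell_lt hK _
  refine ⟨hfin, ?_, ?_, ?_⟩
  · rw [← hcard] at hpos
    exact Set.nonempty_of_ncard_ne_zero hpos.ne'
  · intro m n K L hm hn hK hL hmK hnL hcond E hE
    obtain ⟨Ef, hEf⟩ : ∃ Ef : Finset (ℕ × ℕ), Ef = (Finset.range K ×ˢ Finset.range L).filter (fun e => e ∈ E) :=
      ⟨_, rfl⟩
    have hEf' : ∀ e, e ∈ Ef ↔ e ∈ E := by
      intro e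
      rw [hEf, Finset.mem_filter, Finset.mem_product, Finset.mem_range, Finset.mem_range]
      exact ⟨fun h => h.2, fun h => ⟨hE h, h⟩⟩
    have hEcoe : E = (Ef : Set (ℕ × ℕ)) := by
      ext e
      rw [Finset.mem_coe, hEf']
    -- as functions on `Fin 2`
    obtain ⟨Eg, hEg⟩ : ∃ Eg : Finset (Fin 2 → ℕ), Eg = Ef.image (fun e => ![e.1, e.2]) := ⟨_, rfl⟩
    have hinj : Function.Injective (fun e : ℕ × ℕ => (![e.1, e.2] : Fin 2 → ℕ)) := by
      intro e e' he
      have h1 := congrFun he 0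
      have h2 := congrFun he 1
      simp at h1 h2
      exact Prod.ext h1 h2
    have hEgcard : Eg.card = Ef.card := by rw [hEg, Finset.card_image_of_injective _ hinj]
    have hEgmem : ∀ w : Fin 2 → ℕ, w ∈ Eg ↔ (w 0, w 1) ∈ E := by
      intro w
      rw [hEg, Finset.mem_image, ← hEf']
      constructor
      · rintro ⟨e, he, rfl⟩
        exact he
      · intro h
        refine ⟨_, h, ?_⟩
        funext j
        fin_cases j <;> rfl
    have hlt : ∀ w ∈ Eg, ∀ j, w j < (![K, L] : Fin 2 → ℕ) j := by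
      intro w hw j
      have h1 := hE ((hEgmem w).1 hw)
      fin_cases j
      · exact h1.1
      · exact h1.2
    rw [hq3] at hmK hnL
    have hpow : (H : ℝ) ^ ε' ≤ (H : ℝ) ^ ε := Real.rpow_le_rpow_of_exponent_le hHR hε'e
    have hpow2 : (H : ℝ) ^ ((q : ℝ) + 3 - ε) ≤ (H : ℝ) ^ ((q : ℝ) + 3 - ε') :=
      Real.rpow_le_rpow_of_exponent_le hHR (by linarith)
    have h1 := hl ![m, n] ![K, L] (fun j => by
        fin_cases j
        · exact hpow.trans hm
        · exact hpow.trans hn) (fun j => by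
        fin_cases j
        · exact hK
        · exact hL) (fun j => by
        fin_cases j
        · exact hmK.trans hpow2
        · exact hnL.trans hpow2) (by
        rcases hcond with h | h
        · left
          refine le_trans ?_ h
          exact mul_le_mul_of_nonneg_left hpow (Nat.cast_nonneg _)
        · right
          refine le_trans ?_ h
          exact mul_le_mul_of_nonneg_left hpow (Nat.cast_nonneg _)) Eg hlt
    have h3 : Pool.Agent.W5h30.LL.cn s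
        (fun x => x ∈ Pool.Agent.W5h30.SM.PV a b ![m, n] ![K, L] f g Eg) =
        Pool.Agent.W5h30.LL.cn s (fun x => x ∈ Set.Icc a b ∧ (word m K (f x), word n L (g x)) ∈ E) := by
      congr 1
      funext x
      apply propext
      show (x ∈ Set.Icc a b ∧ Pool.Agent.W5h30.SM.cells ![m, n] ![K, L] f g x ∈ Eg) ↔ _
      rw [hEgmem]
      exact Iff.rfl
    rw [h3, ← hcount, ← hcard, hEgcard] at h1
    rw [hEcoe, Set.ncard_coe_finset, ← hEcoe]
    exact h1.trans (Real.rpow_le_rpow_of_exponent_le hHR (by linarith))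
  · intro m n K L hm hn hK hL hcond
    have hK0 : (0 : ℝ) < K := by exact_mod_cast hK
    have hL0 : (0 : ℝ) < L := by exact_mod_cast hL
    have hKL : (0 : ℝ) < (K : ℝ) * L := by positivity
    rcases hcond with ⟨hc1', hc2'⟩ | hcond
    · obtain ⟨Q, hQ, hQoff⟩ := hoff ![m, n] ![K, L] (fun j => by
        fin_cases j
        · exact hm
        · exact hn) (fun j => by
        fin_cases j
        · exact hK
        · exact hL)
      obtain ⟨E, hE1, hE2, hE3⟩ := Pool.Agent.W5h30.SM.few_values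
        (fun x => (word m K (f x), word n L (g x))) a b Q (by
          intro x y hxy hz hx hy
          have h1 := hQoff {Pool.Agent.W5h30.SM.cells ![m, n] ![K, L] f g x} x y hxy hz
          have h2 : y ∈ Pool.Agent.W5h30.SM.PV a b ![m, n] ![K, L] f g
              {Pool.Agent.W5h30.SM.cells ![m, n] ![K, L] f g x} :=
            h1.1 ⟨hx, Finset.mem_singleton_self _⟩
          have h3 := Finset.mem_singleton.1 h2.2
          have h4 := congrFun h3 0
          have h5 := congrFun h3 1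
          exact Prod.ext h4.symm h5.symm)
      refine ⟨(E : Set (ℕ × ℕ)), ?_, ?_, fun x hx => hE2 x hx.2⟩
      · intro e he
        obtain ⟨t, rfl⟩ := hE3 e he
        exact ⟨hwlt m K _ hK, hwlt n L _ hL⟩
      · rw [Set.ncard_coe_finset, div_le_iff₀ hKL]
        have hmR : (1 : ℝ) ≤ m := by exact_mod_cast hm
        have hnR : (1 : ℝ) ≤ n := by exact_mod_cast hn
        have hKR : (1 : ℝ) ≤ K := by exact_mod_cast hK
        have hLR : (1 : ℝ) ≤ L := by exact_mod_cast hL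
        have h1 : (E.card : ℝ) ≤ 2 * Q.card + 1 := by exact_mod_cast hE1
        have h2 : (Q.card : ℝ) ≤ C1 * ((m : ℝ) * K + (n : ℝ) * L) := hQ
        have h3 : (1 : ℝ) ≤ (m : ℝ) * K + (n : ℝ) * L := by nlinarith
        have h4 : (E.card : ℝ) ≤ (2 * C1 + 1) * ((m : ℝ) * K + (n : ℝ) * L) := by nlinarith
        have h5 : ((m : ℝ) * K + (n : ℝ) * L) * (H : ℝ) ^ ε ≤ 2 * ((K : ℝ) * L) := by nlinarith
        have h6 : (H : ℝ) ^ (2 * c) ≤ (H : ℝ) ^ ε := Real.rpow_le_rpow_of_exponent_le hHR hcc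
        have h7 : 0 ≤ (m : ℝ) * K + (n : ℝ) * L := by positivity
        have h8 : ((m : ℝ) * K + (n : ℝ) * L) * (H : ℝ) ^ (2 * c) ≤ 2 * ((K : ℝ) * L) :=
          (mul_le_mul_of_nonneg_left h6 h7).trans h5
        have h9 : (H : ℝ) ^ (2 * c) = (H : ℝ) ^ c * (H : ℝ) ^ c := by
          rw [← Real.rpow_add hHpos]; congr 1; ring
        have h10 : (0 : ℝ) < (H : ℝ) ^ c := by positivity
        rw [Real.rpow_neg hHpos.le, ← div_eq_inv_mul, le_div_iff₀ h10]
        rw [h9] at h8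
        exact Pool.Agent.W5h30.SM.num3 h4 h8 g1' h10 h7
    · refine ⟨(fun x : ℝ => (word m K (f x), word n L (g x))) '' AlgIn (q + 2) H a b, ?_, ?_, ?_⟩
      · rintro _ ⟨x, _, rfl⟩
        exact ⟨hwlt m K _ hK, hwlt n L _ hL⟩
      · have h1 : ((fun x : ℝ => (word m K (f x), word n L (g x))) '' AlgIn (q + 2) H a b).ncard ≤
            (AlgIn (q + 2) H a b).ncard := Set.ncard_image_le hfin
        have h2 : (AlgIn (q + 2) H a b).ncard ≤ (Pool.Agent.Y933.KG.Om q H).card := by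
          rw [hcard]
          exact (Pool.Agent.W5h30.LL.cn_le_NP hmem _).trans (Pool.Agent.W5h30.LL.NP_le q H _)
        have h3 := Pool.Agent.Y933.KG.card_Om_le q H g3
        rw [← hC3] at h3
        have h4 : (((fun x : ℝ => (word m K (f x), word n L (g x))) '' AlgIn (q + 2) H a b).ncard : ℝ) ≤
            C3 * (H : ℝ) ^ (q + 3) := le_trans (by exact_mod_cast h1.trans h2) h3
        rw [div_le_iff₀ hKL]
        refine h4.trans ?_
        rw [hq3] at hcond
        calc C3 * (H : ℝ) ^ (q + 3) ≤ (H : ℝ) ^ c * (H : ℝ) ^ (q + 3) :=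
              mul_le_mul_of_nonneg_right g1 (by positivity)
          _ = (H : ℝ) ^ (c + ((q : ℝ) + 3)) := by
              rw [Real.rpow_add hHpos]
              congr 1
              rw [← Real.rpow_natCast]
              push_cast
              rfl
          _ ≤ (H : ℝ) ^ (-c + ((q : ℝ) + 3 + ε)) := Real.rpow_le_rpow_of_exponent_le hHR (by linarith)
          _ = (H : ℝ) ^ (-c) * (H : ℝ) ^ ((q : ℝ) + 3 + ε) := Real.rpow_add hHpos _ _
          _ ≤ _ := mul_le_mul_of_nonneg_left hcond (by positivity)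
      · intro x hx
        exact ⟨x, hx, rfl⟩

end Pool.Agent.Results.MP_7e9a3a_nt.JointSharpCutoff
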