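import Mathlib
import Pool.Agent.W5h30.RM.Thr
import Pool.Agent.W5h30.RM.Sharp
import Pool.Agent.W5h30.RM.Conv

/-!
# The digits of the rational multiples of a real number (`e`, `π`, `√2`, ...)

Let `x ≠ 0` be any real number, for instance `e`, `π` or `√2`. Its rational multiples `r x`, `r ≠ 0`, are
normal in a base `b` if and only if `x` is. We consider the multiples `r x` for the `P ^ (2 + o(1))`
fractions `r` between `0` and `1` whose denominator is a prime number `≤ P`. For all of them, except for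
a proportion `P ^ (-c)`, the digits of `r x` up to the place `P ^ (1 - ε)` are equidistributed, with a
power saving, in all bases `b ≤ P ^ c` and at all stages. The exponent `1` is optimal: for all
`N ≥ C P` there are numbers `x` such that, for all these `r`, nearly all of the first `N` digits of
`r x` are zeros.

Proof. For an integer `T ≠ 0` the average over `r` of `exp(2πi r T x)` is small, because the integer
nearest to `T x` (shifted by a small integer) has few prime divisors. This gives the second moments of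
the exponential sums over the sequence `b ^ i r x`. The numbers `x` of the second part are multiples of the product of the primes
`≤ P`, divided by a number `b ^ M - 1`.
-/

set_option autoImplicit false

namespace Pool.Agent.Results.MP_7e9a3a_nt.RationalMultiples

open Finset

/-- the rational numbers between `0` and `1` whose denominator is a prime number `≤ P` -/
def Fractions (P : ℕ) : Set ℚ := {r | 0 < r ∧ r < 1 ∧ r.den.Prime ∧ r.den ≤ P}

/-- for every `n ≤ N` the number of `i` with `1 ≤ i ≤ n` such that the fractional part of `z b^i` lies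
in `[α, β)` differs from `(β - α) n` by at most `E`, for all intervals `[α, β) ⊆ [0, 1)` -/
def DiscrepancyUpTo (b N : ℕ) (E z : ℝ) : Prop :=
  ∀ n : ℕ, n ≤ N → ∀ α β : ℝ, 0 ≤ α → α < β → β ≤ 1 →
    |(({i : ℕ | 1 ≤ i ∧ i ≤ n ∧ α ≤ Int.fract (z * (b : ℝ) ^ i) ∧
      Int.fract (z * (b : ℝ) ^ i) < β}.ncard : ℕ) : ℝ) - (β - α) * n| ≤ E

/-- **Main theorem.** (1) For `0 < ε < 1` there are `c > 0` and `P₀` such that for all `P ≥ P₀` and all
real `x` with `1 / P ≤ |x| ≤ P`: for all but a proportion `P ^ (-c)` of the fractions `r`, in all bases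
`2 ≤ b ≤ P ^ c` and for all `N ≤ P ^ (1 - ε)`, the discrepancy (not normalised) of the first `N` terms
of `(r x b ^ i)_{i ≥ 1}` is at most `P ^ (1 - ε - c)`. (2) For `b ≥ 2`, `η > 0` there is `C` such that
for all `P ≥ 1` and `N ≥ C P` there is an algebraic irrational number `x` in `[1, b + 1]` such that
for all the fractions `r` at least `(1 - η) N` of the first `N` digits of `r x` after the first place
are zeros. -/
theorem result :
    (∀ ε : ℝ, 0 < ε → ε < 1 → ∃ c : ℝ, 0 < c ∧ ∃ P₀ : ℕ, ∀ P : ℕ, P₀ ≤ P →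
      (Fractions P).Finite ∧ (Fractions P).Nonempty ∧ ∀ x : ℝ, 1 / (P : ℝ) ≤ |x| → |x| ≤ P →
        (({r ∈ Fractions P | ¬ ∀ b : ℕ, 2 ≤ b → (b : ℝ) ≤ (P : ℝ) ^ c → ∀ N : ℕ,
          (N : ℝ) ≤ (P : ℝ) ^ (1 - ε) →
            DiscrepancyUpTo b N ((P : ℝ) ^ (1 - ε - c)) (r * x)}.ncard : ℕ) : ℝ) ≤
          (P : ℝ) ^ (-c) * ((Fractions P).ncard : ℝ)) ∧
    (∀ b : ℕ, 2 ≤ b → ∀ η : ℝ, 0 < η → ∃ C : ℕ, ∀ P : ℕ, 1 ≤ P → ∀ N : ℕ, C * P ≤ N →
      ∃ x : ℝ, IsAlgebraic ℚ x ∧ Irrational x ∧ 1 ≤ x ∧ x ≤ b + 1 ∧ ∀ r ∈ Fractions P,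
        (1 - η) * N ≤ (({i : ℕ | 1 ≤ i ∧ i ≤ N ∧
          Int.fract (r * x * (b : ℝ) ^ i) < 1 / b}.ncard : ℕ) : ℝ)) := by
  classical
  have hcoe : ∀ P : ℕ, Fractions P = (Pool.Agent.W5h30.RM.FS P : Set ℚ) := fun P =>
    Pool.Agent.W5h30.RM.coe_FS P
  refine ⟨fun ε hε0 hε1 => ?_, fun b hb η hη => ?_⟩
  · obtain ⟨c, hc, P0, h⟩ := Pool.Agent.W5h30.RM.thr_main ε hε0 hε1
    obtain ⟨P1, hP1⟩ := Filter.eventually_atTop.1 (Pool.Agent.W5h30.RM.ev_card 1 one_pos)
    refine ⟨c, hc, max (max P0 P1) 1, fun P hP => ?_⟩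
    have hPa : P0 ≤ P := (le_max_left _ _).trans ((le_max_left _ _).trans hP)
    have hPb : P1 ≤ P := (le_max_right _ _).trans ((le_max_left _ _).trans hP)
    have hPc : 1 ≤ P := (le_max_right _ _).trans hP
    have hne : (Pool.Agent.W5h30.RM.FS P).Nonempty := by
      rw [← card_pos]
      have h1 := hP1 P hPb
      have h2 : (0 : ℝ) < (P : ℝ) ^ (2 - (1 : ℝ)) := by
        have : (0 : ℝ) < P := by exact_mod_cast hPc
        positivity
      exact_mod_cast h2.trans_le h1
    refine ⟨by rw [hcoe]; exact finite_toSet _, by rw [hcoe]; exact_mod_cast hne,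
      fun x hx1 hx2 => ?_⟩
    have h1 := h P hPa x hx1 hx2
    rw [hcoe, Set.ncard_coe_finset]
    refine le_trans (le_of_eq ?_) h1
    rw [← Set.ncard_coe_finset]
    congr 2
    ext r
    simp only [Set.mem_ofPred_eq, mem_coe, mem_filter]
    refine and_congr_right fun _ => not_congr (forall_congr' fun b => forall_congr' fun _ =>
      forall_congr' fun _ => forall_congr' fun N => forall_congr' fun _ => ?_)
    exact Pool.Agent.W5h30.RM.DU_iff b N _ _
  · obtain ⟨C, h⟩ := Pool.Agent.W5h30.RM.sharp b hb η hη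
    refine ⟨C, fun P hP N hN => ?_⟩
    obtain ⟨x, hx1, hx2, hx3, hx4, hx5⟩ := h P hP N hN
    refine ⟨x, hx1, hx2, hx3, hx4, fun r hr => ?_⟩
    have hr' : r ∈ Pool.Agent.W5h30.RM.FS P := by
      rw [hcoe] at hr
      exact hr
    refine (hx5 r hr').trans (le_of_eq ?_)
    rw [← Set.ncard_coe_finset]
    congr 2
    ext i
    simp [and_assoc]

end Pool.Agent.Results.MP_7e9a3a_nt.RationalMultiples
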