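import Pool.Agent.W5h30.An.Tot
import Pool.Agent.W5h30.An.Pol
import Pool.Agent.Y603.BR.Conv

/-!
# Small circuits of bounded depth cannot tell the digits of `e ^ (a / q)` from random digits

Let `g` be a real analytic function on a neighbourhood of `[u, v]` which is not a polynomial, for
instance `g(t) = x ^ t` with `x = e`, `π` or `2` (then `e`, `π` and `√2` are among the values of `g` at
rational points). A circuit of depth at most `D` (gates of unbounded fan-in) with at most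
`exp((log q) ^ c)` gates reads the base `b` digits of `g(a / q)` at places between `δ log_b q` and
`A log_b q`. For a random integer `a` with `u ≤ a / q ≤ v` it accepts with the probability with which
it accepts random digits, up to `exp(-(log q) ^ c)`. The same holds for `ω g(a / q) + R(a)`, where
`1 ≤ |ω| ≤ q ^ W` and `R` is a real polynomial of degree at most `d`, uniformly. The numbers `δ > 0`
and `A`, `W`, `d` are arbitrary. No hypothesis is assumed.

From the starting files: the test of van der Corput of high order, and the theorem of Braverman on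
circuits of bounded depth in the form of `Pool.Agent.Y603.BR.Conv`, which was used there for random
real algebraic numbers.
-/

set_option autoImplicit false

namespace Pool.Agent.Results.MP_7e9a3a_nt.ValuesAgainstCircuits

open Polynomial MeasureTheory Filter
open Pool.Agent.Y603.BR (digit Circuit circ_fool measurableSet_val)
open Pool.Agent.Y933.KD (unif unif_prob integral_unif real_unif)

theorem result (g : ℝ → ℝ) (u v : ℝ) (huv : u < v) (hg : AnalyticOnNhd ℝ g (Set.Icc u v))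
    (hpol : ∀ P : ℝ[X], ∃ t ∈ Set.Icc u v, g t ≠ P.eval t) {b : ℕ} (hb : 2 ≤ b) (D d : ℕ)
    (δ A W : ℝ) (hδ : 0 < δ) :
    ∃ c : ℝ, 0 < c ∧ ∃ q₀ : ℕ, ∀ q : ℕ, q₀ ≤ q →
      ∀ (ω : ℝ) (R : ℝ[X]), 1 ≤ |ω| → |ω| ≤ (q : ℝ) ^ W → R.natDegree ≤ d →
      ∀ s n : ℕ, (q : ℝ) ^ δ ≤ (b : ℝ) ^ s → (b : ℝ) ^ (s + n) ≤ (q : ℝ) ^ A →
      ∀ C : Circuit (Set.Icc 1 n), (∀ v, C.depth v ≤ D) →
      (Nat.card C.Node : ℝ) ≤ Real.exp (Real.log q ^ c) → ∀ z : C.Node,
      |(({a : ℤ | u ≤ (a : ℝ) / q ∧ (a : ℝ) / q ≤ v ∧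
            C.val z (fun j => digit b (ω * g ((a : ℝ) / q) + R.eval (a : ℝ)) (s + j)) =
              true}.ncard : ℕ) : ℝ) /
            (({a : ℤ | u ≤ (a : ℝ) / q ∧ (a : ℝ) / q ≤ v}.ncard : ℕ) : ℝ) -
          volume.real {t | t ∈ Set.Ico (0 : ℝ) 1 ∧ C.val z (digit b t) = true}| ≤
        Real.exp (-(Real.log q ^ c)) := by
  classical
  have hb0 : 0 < b := by omega
  have hbR : (2 : ℝ) ≤ b := by exact_mod_cast hb
  obtain ⟨A', hA'⟩ : ∃ A' : ℝ, A' = max A 0 := ⟨_, rfl⟩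
  have hA'0 : 0 ≤ A' := by rw [hA']; exact le_max_right _ _
  have hAA' : A ≤ A' := by rw [hA']; exact le_max_left _ _
  obtain ⟨ρ, hρ, H1, hH1⟩ := Pool.Agent.W5h30.An.sum_TT huv hg
    (Pool.Agent.W5h30.An.not_poly hg hpol) d (W + (A' + 2) + A') hδ
  obtain ⟨c1, hc1, H2, hH2⟩ := circ_fool hb D hA'0 hρ
  refine ⟨c1, hc1, max (max H1 H2) 3, fun q hq => ?_⟩
  have hHa : H1 ≤ q := le_of_max_le_left (le_of_max_le_left hq)
  have hHb : H2 ≤ q := le_of_max_le_right (le_of_max_le_left hq)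
  have hHc : 3 ≤ q := le_of_max_le_right hq
  have hHR : (3 : ℝ) ≤ q := by exact_mod_cast hHc
  have hH1R : (1 : ℝ) ≤ q := by linarith
  have hHp : (0 : ℝ) < q := by linarith
  obtain ⟨hne, hkey⟩ := hH1 q hHa
  intro ω R hω1 hω2 hR s n hs hsn C hCd hCs z
  have hcard0 : (0 : ℝ) < (Pool.Agent.W5h30.An.TT u v q).card := by exact_mod_cast hne.card_pos
  have hbs : (0 : ℝ) < (b : ℝ) ^ s := by positivity
  have hbn1 : (1 : ℝ) ≤ (b : ℝ) ^ n := one_le_pow₀ (by linarith)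
  have hbs1 : (1 : ℝ) ≤ (b : ℝ) ^ s := one_le_pow₀ (by linarith)
  have hsn' : (b : ℝ) ^ (s + n) ≤ (q : ℝ) ^ A' :=
    hsn.trans (Real.rpow_le_rpow_of_exponent_le hH1R hAA')
  rw [pow_add] at hsn'
  have hs2 : (b : ℝ) ^ s ≤ (q : ℝ) ^ A' := by nlinarith
  have hn2 : (b : ℝ) ^ n ≤ (q : ℝ) ^ A' := by nlinarith
  have := unif_prob hne fun a : ℤ => (b : ℝ) ^ s * (ω * g ((a : ℝ) / q) + R.eval (a : ℝ))
  have key := hH2 q hHb
    (unif (Pool.Agent.W5h30.An.TT u v q)
      fun a : ℤ => (b : ℝ) ^ s * (ω * g ((a : ℝ) / q) + R.eval (a : ℝ))) (by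
    intro l hl hle
    have hl1 : (1 : ℝ) ≤ |(l : ℝ)| := by
      have : (1 : ℤ) ≤ |l| := Int.one_le_abs hl
      exact_mod_cast this
    have h3 := hkey ((l : ℝ) * (b : ℝ) ^ s * ω) (Polynomial.C ((l : ℝ) * (b : ℝ) ^ s) * R)
      ((natDegree_C_mul_le _ _).trans hR)
      (by
        rw [abs_mul, abs_mul, abs_of_pos hbs]
        calc (q : ℝ) ^ δ ≤ (b : ℝ) ^ s := hs
          _ = 1 * (b : ℝ) ^ s * 1 := by ring
          _ ≤ |(l : ℝ)| * (b : ℝ) ^ s * |ω| := by gcongr)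
      (by
        rw [abs_mul, abs_mul, abs_of_pos hbs]
        calc |(l : ℝ)| * (b : ℝ) ^ s * |ω| ≤
            (q : ℝ) ^ (A' + 2) * (q : ℝ) ^ A' * (q : ℝ) ^ W := by gcongr
          _ = (q : ℝ) ^ (W + (A' + 2) + A') := by
              rw [← Real.rpow_add hHp, ← Real.rpow_add hHp]
              congr 1
              ring)
    unfold Pool.Agent.Y933.KD.hat
    rw [integral_unif]
    have e1 : ∑ a ∈ Pool.Agent.W5h30.An.TT u v q, Pool.Agent.Y933.KD.e (l * ((b : ℝ) ^ s *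
          (ω * g ((a : ℝ) / q) + R.eval (a : ℝ)))) =
        ∑ a ∈ Pool.Agent.W5h30.An.TT u v q, Pool.Agent.H469R2.NK.e ((l : ℝ) * (b : ℝ) ^ s * ω *
          g ((a : ℝ) / q) + (Polynomial.C ((l : ℝ) * (b : ℝ) ^ s) * R).eval (a : ℝ)) := by
      refine Finset.sum_congr rfl fun a _ => ?_
      have e2 : (l : ℝ) * ((b : ℝ) ^ s * (ω * g ((a : ℝ) / q) + R.eval (a : ℝ))) =
          (l : ℝ) * (b : ℝ) ^ s * ω * g ((a : ℝ) / q) +
            (Polynomial.C ((l : ℝ) * (b : ℝ) ^ s) * R).eval (a : ℝ) := by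
        rw [Polynomial.eval_mul, Polynomial.eval_C]
        ring
      rw [e2]
      rfl
    rw [e1, norm_mul, norm_div, norm_one, Complex.norm_natCast, one_div, inv_mul_le_iff₀ hcard0]
    exact h3) n hn2 C hCd hCs z
  refine le_trans (le_of_eq ?_) key
  rw [real_unif _ _ (measurableSet_val hb0 C z)]
  have hdig : ∀ y : ℝ, digit b ((b : ℝ) ^ s * y) = fun j => digit b y (s + j) := by
    intro y
    funext j
    unfold digit
    rw [pow_add, ← mul_assoc, mul_comm ((b : ℝ) ^ j)]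
  have hmem : ∀ a : ℤ, a ∈ Pool.Agent.W5h30.An.TT u v q ↔ u ≤ (a : ℝ) / q ∧ (a : ℝ) / q ≤ v := by
    intro a
    unfold Pool.Agent.W5h30.An.TT
    rw [Finset.mem_Icc, Int.ceil_le, Int.le_floor, le_div_iff₀ hHp, div_le_iff₀ hHp]
  have e1 : ({a : ℤ | u ≤ (a : ℝ) / q ∧ (a : ℝ) / q ≤ v ∧
      C.val z (fun j => digit b (ω * g ((a : ℝ) / q) + R.eval (a : ℝ)) (s + j)) =
        true}.ncard : ℕ) =
      ((Pool.Agent.W5h30.An.TT u v q).filter fun a : ℤ =>
        (b : ℝ) ^ s * (ω * g ((a : ℝ) / q) + R.eval (a : ℝ)) ∈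
          {y | C.val z (digit b y) = true}).card := by
    rw [← Set.ncard_coe_finset]
    congr 1
    ext a
    rw [Finset.mem_coe, Finset.mem_filter, hmem]
    simp only [Set.mem_ofPred_eq]
    rw [hdig]
    tauto
  have e2 : {a : ℤ | u ≤ (a : ℝ) / q ∧ (a : ℝ) / q ≤ v}.ncard =
      (Pool.Agent.W5h30.An.TT u v q).card := by
    rw [← Set.ncard_coe_finset]
    congr 1
    ext a
    rw [Finset.mem_coe, hmem]
    rfl
  rw [e1, e2]

end Pool.Agent.Results.MP_7e9a3a_nt.ValuesAgainstCircuits
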